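import Mathlib

set_option autoImplicit false

namespace Pool.Agent.Results.MP_7d9e78_al.NotSpecialCharThree

universe u w v

/-! ### Definitions used in the statement -/

/-- The Jordan identity of a commutative algebra. -/
def JordanIdentity (J : Type u) [NonUnitalNonAssocCommRing J] : Prop :=
  ∀ x y : J, ((x * x) * y) * x = (x * x) * (y * x)

section JV

variable {F : Type u} {V : Type w} [Field F] [AddCommGroup V] [Module F V]

/-- The underlying space `F ⊕ V` of the Jordan algebra `J(V, f)` of the bilinear form `f`. -/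
def JV (_f : LinearMap.BilinForm F V) : Type (max u w) := F × V

variable (f : LinearMap.BilinForm F V)

instance : AddCommGroup (JV f) := inferInstanceAs (AddCommGroup (F × V))

instance : Module F (JV f) := inferInstanceAs (Module F (F × V))

/-- The product `(α + v)(β + w) = (αβ + f(v, w)) + (α w + β v)` of `J(V, f)`. -/
instance : Mul (JV f) :=
  ⟨fun x y => (x.1 * y.1 + f x.2 y.2, x.1 • y.2 + y.1 • x.2)⟩

theorem JV.mul_def (x y : JV f) :
    x * y = ((x.1 * y.1 + f x.2 y.2, x.1 • y.2 + y.1 • x.2) : F × V) := rfl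

theorem JV.ext' {x y : JV f} (h1 : x.1 = y.1) (h2 : x.2 = y.2) : x = y := Prod.ext h1 h2

theorem JV.mul_fst (x y : JV f) : (x * y).1 = x.1 * y.1 + f x.2 y.2 := rfl
theorem JV.mul_snd (x y : JV f) : (x * y).2 = x.1 • y.2 + y.1 • x.2 := rfl
theorem JV.add_fst (x y : JV f) : (x + y).1 = x.1 + y.1 := rfl
theorem JV.add_snd (x y : JV f) : (x + y).2 = x.2 + y.2 := rfl
theorem JV.smul_fst (c : F) (x : JV f) : (c • x).1 = c * x.1 := rfl
theorem JV.smul_snd (c : F) (x : JV f) : (c • x).2 = c • x.2 := rfl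
theorem JV.zero_fst : (0 : JV f).1 = 0 := rfl
theorem JV.zero_snd : (0 : JV f).2 = 0 := rfl

instance : NonUnitalNonAssocRing (JV f) :=
  { (inferInstance : AddCommGroup (JV f)), (inferInstance : Mul (JV f)) with
    left_distrib := by
      intro x y z
      refine JV.ext' f ?_ ?_
      · simp only [JV.mul_fst, JV.add_fst, JV.add_snd, map_add]; ring
      · simp only [JV.mul_snd, JV.add_fst, JV.add_snd, smul_add, add_smul]; abel
    right_distrib := by
      intro x y z
      refine JV.ext' f ?_ ?_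
      · simp only [JV.mul_fst, JV.add_fst, JV.add_snd, map_add, LinearMap.add_apply]; ring
      · simp only [JV.mul_snd, JV.add_fst, JV.add_snd, smul_add, add_smul]; abel
    zero_mul := by
      intro x
      refine JV.ext' f ?_ ?_
      · simp only [JV.mul_fst, JV.zero_fst, JV.zero_snd, map_zero, LinearMap.zero_apply]; ring
      · simp only [JV.mul_snd, JV.zero_fst, JV.zero_snd, smul_zero, zero_smul, add_zero]
    mul_zero := by
      intro x
      refine JV.ext' f ?_ ?_
      · simp only [JV.mul_fst, JV.zero_fst, JV.zero_snd, map_zero]; ring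
      · simp only [JV.mul_snd, JV.zero_fst, JV.zero_snd, smul_zero, zero_smul, add_zero] }

instance : IsScalarTower F (JV f) (JV f) := by
  constructor
  intro c x y
  refine JV.ext' f ?_ ?_
  · simp only [smul_eq_mul, JV.mul_fst, JV.smul_fst, JV.smul_snd, map_smul,
      LinearMap.smul_apply]; ring
  · simp only [smul_eq_mul, JV.mul_snd, JV.smul_fst, JV.smul_snd, smul_add, mul_smul]
    rw [smul_comm c y.1]

instance : SMulCommClass F (JV f) (JV f) := by
  constructor
  intro c x y
  refine JV.ext' f ?_ ?_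
  · simp only [smul_eq_mul, JV.mul_fst, JV.smul_fst, JV.smul_snd, map_smul]; ring
  · simp only [smul_eq_mul, JV.mul_snd, JV.smul_fst, JV.smul_snd, smul_add, mul_smul]
    rw [smul_comm c x.1]

end JV

/-- `p`, a nonassociative polynomial in countably many variables over `F`, is an identity of the
`F`-algebra `J`: all values of `p` in `J` are zero. -/
def IsIdentity (F : Type*) [Field F] (J : Type*) [NonUnitalNonAssocRing J] [Module F J]
    [IsScalarTower F J J] [SMulCommClass F J J] (p : FreeNonUnitalNonAssocAlgebra F ℕ) : Prop :=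
  ∀ ρ : ℕ → J, FreeNonUnitalNonAssocAlgebra.lift F ρ p = 0

/-- `J` satisfies all identities of `J₀`. -/
def InVar (F : Type*) [Field F]
    (J₀ : Type*) [NonUnitalNonAssocRing J₀] [Module F J₀] [IsScalarTower F J₀ J₀]
    [SMulCommClass F J₀ J₀]
    (J : Type*) [NonUnitalNonAssocRing J] [Module F J] [IsScalarTower F J J]
    [SMulCommClass F J J] : Prop :=
  ∀ p : FreeNonUnitalNonAssocAlgebra F ℕ, IsIdentity F J₀ p → IsIdentity F J p

/-- `J` is special (with respect to associative algebras living in universe `v`): there are an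
associative (not necessarily unital) `F`-algebra `A` and an injective `F`-linear map `g : J → A`
with `g (x y) = 1/2 (g x g y + g y g x)`. -/
def IsSpecial (F : Type*) [Field F] (J : Type*) [NonUnitalNonAssocCommRing J] [Module F J] :
    Prop :=
  ∃ (A : Type v) (_ : NonUnitalRing A) (_ : Module F A) (_ : IsScalarTower F A A)
    (_ : SMulCommClass F A A) (g : J →ₗ[F] A), Function.Injective g ∧
      ∀ x y : J, g (x * y) = (2 : F)⁻¹ • (g x * g y + g y * g x)

/-- The variety generated by `J(V, f)` is special: every Jordan `F`-algebra which satisfies all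
identities of `J(V, f)` is special. -/
def VarIsSpecial {F : Type u} {V : Type w} [Field F] [AddCommGroup V] [Module F V]
    (f : LinearMap.BilinForm F V) : Prop :=
  ∀ (J : Type u) [NonUnitalNonAssocCommRing J] [Module F J] [IsScalarTower F J J]
    [SMulCommClass F J J], JordanIdentity J → InVar F (JV f) J → IsSpecial.{v} F J

/-! ### The algebras `J(R², Gram matrix (a, b; b, c))` over commutative `F`-algebras -/

/-- `R ⊕ R²` with the form with Gram matrix `(a, b; b, c)`. -/
def JG (R : Type u) (_a _b _c : R) : Type u := R × R × R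

namespace JG

section
variable {R : Type u} [CommRing R] (a b c : R)

instance : AddCommGroup (JG R a b c) := inferInstanceAs (AddCommGroup (R × R × R))

instance : Mul (JG R a b c) :=
  ⟨fun x y => (x.1 * y.1 + (a * x.2.1 * y.2.1 + b * (x.2.1 * y.2.2 + x.2.2 * y.2.1)
      + c * x.2.2 * y.2.2), x.1 * y.2.1 + y.1 * x.2.1, x.1 * y.2.2 + y.1 * x.2.2)⟩

variable {a b c}

omit [CommRing R] in
theorem ext' {x y : JG R a b c} (h1 : x.1 = y.1) (h2 : x.2.1 = y.2.1) (h3 : x.2.2 = y.2.2) :
    x = y := Prod.ext h1 (Prod.ext h2 h3)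

theorem mul_1 (x y : JG R a b c) : (x * y).1 = x.1 * y.1 + (a * x.2.1 * y.2.1 +
    b * (x.2.1 * y.2.2 + x.2.2 * y.2.1) + c * x.2.2 * y.2.2) := rfl
theorem mul_2 (x y : JG R a b c) : (x * y).2.1 = x.1 * y.2.1 + y.1 * x.2.1 := rfl
theorem mul_3 (x y : JG R a b c) : (x * y).2.2 = x.1 * y.2.2 + y.1 * x.2.2 := rfl
theorem add_1 (x y : JG R a b c) : (x + y).1 = x.1 + y.1 := rfl
theorem add_2 (x y : JG R a b c) : (x + y).2.1 = x.2.1 + y.2.1 := rfl
theorem add_3 (x y : JG R a b c) : (x + y).2.2 = x.2.2 + y.2.2 := rfl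
theorem zero_1 : (0 : JG R a b c).1 = 0 := rfl
theorem zero_2 : (0 : JG R a b c).2.1 = 0 := rfl
theorem zero_3 : (0 : JG R a b c).2.2 = 0 := rfl

instance : NonUnitalNonAssocRing (JG R a b c) :=
  { (inferInstance : AddCommGroup (JG R a b c)), (inferInstance : Mul (JG R a b c)) with
    left_distrib := by
      intro x y z
      refine ext' ?_ ?_ ?_ <;> simp only [mul_1, mul_2, mul_3, add_1, add_2, add_3] <;> ring
    right_distrib := by
      intro x y z
      refine ext' ?_ ?_ ?_ <;> simp only [mul_1, mul_2, mul_3, add_1, add_2, add_3] <;> ring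
    zero_mul := by
      intro x
      refine ext' ?_ ?_ ?_ <;> simp only [mul_1, mul_2, mul_3, zero_1, zero_2, zero_3] <;> ring
    mul_zero := by
      intro x
      refine ext' ?_ ?_ ?_ <;> simp only [mul_1, mul_2, mul_3, zero_1, zero_2, zero_3] <;> ring }

variable {F : Type v} [Field F] [Algebra F R]

instance : Module F (JG R a b c) := inferInstanceAs (Module F (R × R × R))

theorem smul_1 (t : F) (x : JG R a b c) : (t • x).1 = t • x.1 := rfl
theorem smul_2 (t : F) (x : JG R a b c) : (t • x).2.1 = t • x.2.1 := rfl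
theorem smul_3 (t : F) (x : JG R a b c) : (t • x).2.2 = t • x.2.2 := rfl

instance : IsScalarTower F (JG R a b c) (JG R a b c) := by
  constructor
  intro t x y
  refine ext' ?_ ?_ ?_ <;>
    simp only [smul_eq_mul, mul_1, mul_2, mul_3, smul_1, smul_2, smul_3, Algebra.smul_def] <;> ring

instance : SMulCommClass F (JG R a b c) (JG R a b c) := by
  constructor
  intro t x y
  refine ext' ?_ ?_ ?_ <;>
    simp only [smul_eq_mul, mul_1, mul_2, mul_3, smul_1, smul_2, smul_3, Algebra.smul_def] <;> ring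

end

/-- Functoriality in `R`. -/
def map {F : Type v} [Field F] {R S : Type*} [CommRing R] [CommRing S] [Algebra F R] [Algebra F S]
    (φ : R →ₐ[F] S) {a b c : R} {a' b' c' : S} (ha : φ a = a') (hb : φ b = b') (hc : φ c = c') :
    JG R a b c →ₙₐ[F] JG S a' b' c' where
  toFun x := (φ x.1, φ x.2.1, φ x.2.2)
  map_smul' t x := by
    refine ext' ?_ ?_ ?_
    · exact map_smul φ t x.1
    · exact map_smul φ t x.2.1
    · exact map_smul φ t x.2.2
  map_zero' := by
    refine ext' ?_ ?_ ?_ <;> exact map_zero φ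
  map_add' x y := by
    refine ext' ?_ ?_ ?_ <;> exact map_add φ _ _
  map_mul' x y := by
    subst ha hb hc
    refine ext' ?_ ?_ ?_
    · change φ (x * y).1 = φ x.1 * φ y.1 + (φ a * φ x.2.1 * φ y.2.1 +
        φ b * (φ x.2.1 * φ y.2.2 + φ x.2.2 * φ y.2.1) + φ c * φ x.2.2 * φ y.2.2)
      rw [mul_1]; simp only [map_add, map_mul]
    · change φ (x * y).2.1 = φ x.1 * φ y.2.1 + φ y.1 * φ x.2.1
      rw [mul_2]; simp only [map_add, map_mul]
    · change φ (x * y).2.2 = φ x.1 * φ y.2.2 + φ y.1 * φ x.2.2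
      rw [mul_3]; simp only [map_add, map_mul]

/-- Base change. -/
def base (F : Type v) [Field F] {R : Type*} [CommRing R] [Algebra F R] {a b c : R} (p q r s : R)
    (h1 : a * p * p + b * (p * q + q * p) + c * q * q = 0)
    (h2 : a * p * r + b * (p * s + q * r) + c * q * s = 1)
    (h3 : a * r * r + b * (r * s + s * r) + c * s * s = 0) :
    JG R 0 1 0 →ₙₐ[F] JG R a b c where
  toFun x := (x.1, p * x.2.1 + r * x.2.2, q * x.2.1 + s * x.2.2)
  map_smul' t x := by
    refine ext' rfl ?_ ?_
    · change p * (t • x).2.1 + r * (t • x).2.2 = t • (p * x.2.1 + r * x.2.2)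
      simp only [smul_2, smul_3, Algebra.smul_def]; ring
    · change q * (t • x).2.1 + s * (t • x).2.2 = t • (q * x.2.1 + s * x.2.2)
      simp only [smul_2, smul_3, Algebra.smul_def]; ring
  map_zero' := by
    refine ext' rfl ?_ ?_
    · change p * (0 : R) + r * 0 = 0; ring
    · change q * (0 : R) + s * 0 = 0; ring
  map_add' x y := by
    refine ext' rfl ?_ ?_
    · change p * (x.2.1 + y.2.1) + r * (x.2.2 + y.2.2) = (p * x.2.1 + r * x.2.2) +
        (p * y.2.1 + r * y.2.2)
      ring
    · change q * (x.2.1 + y.2.1) + s * (x.2.2 + y.2.2) = (q * x.2.1 + s * x.2.2) +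
        (q * y.2.1 + s * y.2.2)
      ring
  map_mul' x y := by
    refine ext' ?_ ?_ ?_
    · change x.1 * y.1 + (0 * x.2.1 * y.2.1 + 1 * (x.2.1 * y.2.2 + x.2.2 * y.2.1) +
        0 * x.2.2 * y.2.2) = x.1 * y.1 + (a * (p * x.2.1 + r * x.2.2) * (p * y.2.1 + r * y.2.2) +
        b * ((p * x.2.1 + r * x.2.2) * (q * y.2.1 + s * y.2.2) +
          (q * x.2.1 + s * x.2.2) * (p * y.2.1 + r * y.2.2)) +
        c * (q * x.2.1 + s * x.2.2) * (q * y.2.1 + s * y.2.2))
      linear_combination (-(x.2.1 * y.2.1)) * h1 - (x.2.1 * y.2.2 + x.2.2 * y.2.1) * h2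
        - (x.2.2 * y.2.2) * h3
    · change p * (x.1 * y.2.1 + y.1 * x.2.1) + r * (x.1 * y.2.2 + y.1 * x.2.2) =
        x.1 * (p * y.2.1 + r * y.2.2) + y.1 * (p * x.2.1 + r * x.2.2)
      ring
    · change q * (x.1 * y.2.1 + y.1 * x.2.1) + s * (x.1 * y.2.2 + y.1 * x.2.2) =
        x.1 * (q * y.2.1 + s * y.2.2) + y.1 * (q * x.2.1 + s * x.2.2)
      ring

end JG

/-- Homomorphisms commute with the evaluation of nonassociative polynomials. -/
theorem hom_lift {F : Type*} [Field F] {X : Type*} {A B : Type*} [NonUnitalNonAssocRing A]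
    [Module F A] [IsScalarTower F A A] [SMulCommClass F A A] [NonUnitalNonAssocRing B] [Module F B]
    [IsScalarTower F B B] [SMulCommClass F B B] (φ : A →ₙₐ[F] B) (ρ : X → A)
    (p : FreeNonUnitalNonAssocAlgebra F X) :
    φ (FreeNonUnitalNonAssocAlgebra.lift F ρ p) =
      FreeNonUnitalNonAssocAlgebra.lift F (fun x => φ (ρ x)) p := by
  have : φ.comp (FreeNonUnitalNonAssocAlgebra.lift F ρ) =
      FreeNonUnitalNonAssocAlgebra.lift F (fun x => φ (ρ x)) := by
    apply FreeNonUnitalNonAssocAlgebra.hom_ext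
    intro x
    simp
  exact DFunLike.congr_fun this p

/-- Identities of `J(F², Gram)` are identities of `J(R², Gram)` for every commutative `F`-algebra
`R`, when `F` is infinite. -/
theorem JG.identity_ext {F : Type u} [Field F] [Infinite F] (a b c : F)
    (R : Type v) [CommRing R] [Algebra F R] (p : FreeNonUnitalNonAssocAlgebra F ℕ)
    (h : IsIdentity F (JG F a b c) p) :
    IsIdentity F (JG R (algebraMap F R a) (algebraMap F R b) (algebraMap F R c)) p := by
  intro ρ
  let P := MvPolynomial (ℕ × Fin 3) F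
  let G : ℕ → JG P (algebraMap F P a) (algebraMap F P b) (algebraMap F P c) :=
    fun n => (MvPolynomial.X (n, 0), MvPolynomial.X (n, 1), MvPolynomial.X (n, 2))
  have h0 : FreeNonUnitalNonAssocAlgebra.lift F G p = 0 := by
    have key : ∀ s : ℕ × Fin 3 → F,
        (JG.map (MvPolynomial.aeval s : P →ₐ[F] F) (a' := a) (b' := b) (c' := c)
          (AlgHom.commutes _ a) (AlgHom.commutes _ b) (AlgHom.commutes _ c))
            (FreeNonUnitalNonAssocAlgebra.lift F G p) = 0 := by
      intro s
      rw [hom_lift]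
      exact h _
    refine JG.ext' ?_ ?_ ?_
    · apply MvPolynomial.funext
      intro s
      have h5 : MvPolynomial.aeval s (FreeNonUnitalNonAssocAlgebra.lift F G p).1 = 0 :=
        congrArg (fun t : JG F a b c => t.1) (key s)
      rw [JG.zero_1, map_zero, ← h5, MvPolynomial.aeval_eq_eval]
    · apply MvPolynomial.funext
      intro s
      have h5 : MvPolynomial.aeval s (FreeNonUnitalNonAssocAlgebra.lift F G p).2.1 = 0 :=
        congrArg (fun t : JG F a b c => t.2.1) (key s)
      rw [JG.zero_2, map_zero, ← h5, MvPolynomial.aeval_eq_eval]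
    · apply MvPolynomial.funext
      intro s
      have h5 : MvPolynomial.aeval s (FreeNonUnitalNonAssocAlgebra.lift F G p).2.2 = 0 :=
        congrArg (fun t : JG F a b c => t.2.2) (key s)
      rw [JG.zero_3, map_zero, ← h5, MvPolynomial.aeval_eq_eval]
  let s : ℕ × Fin 3 → R := fun i => if i.2 = 0 then (ρ i.1).1 else if i.2 = 1 then (ρ i.1).2.1
    else (ρ i.1).2.2
  let ψ := JG.map (MvPolynomial.aeval s : P →ₐ[F] R) (a := algebraMap F P a)
    (b := algebraMap F P b) (c := algebraMap F P c) (a' := algebraMap F R a)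
    (b' := algebraMap F R b) (c' := algebraMap F R c) (AlgHom.commutes _ a)
    (AlgHom.commutes _ b) (AlgHom.commutes _ c)
  have h1 := congrArg ψ h0
  rw [hom_lift, map_zero] at h1
  have h2 : (fun x => ψ (G x)) = ρ := by
    funext n
    refine JG.ext' ?_ ?_ ?_
    · change (MvPolynomial.aeval s) (MvPolynomial.X (n, (0 : Fin 3)) : P) = _
      simp [s]
    · change (MvPolynomial.aeval s) (MvPolynomial.X (n, (1 : Fin 3)) : P) = _
      simp [s]
    · change (MvPolynomial.aeval s) (MvPolynomial.X (n, (2 : Fin 3)) : P) = _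
      simp [s]
  rwa [h2] at h1

theorem JV.identity_sub {F : Type u} {V : Type w} [Field F] [AddCommGroup V] [Module F V]
    (f : LinearMap.BilinForm F V) (hf : ∀ x y, f x y = f y x) (x y : V)
    (hd : f x x * f y y ≠ f x y * f x y) (p : FreeNonUnitalNonAssocAlgebra F ℕ)
    (h : IsIdentity F (JV f) p) : IsIdentity F (JG F (f x x) (f x y) (f y y)) p := by
  let ψ : JG F (f x x) (f x y) (f y y) →ₙₐ[F] JV f :=
    { toFun := fun t => ((t.1, t.2.1 • x + t.2.2 • y) : F × V)
      map_smul' := by
        intro c t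
        refine JV.ext' f rfl ?_
        change (c * t.2.1) • x + (c * t.2.2) • y = c • (t.2.1 • x + t.2.2 • y)
        rw [smul_add, mul_smul, mul_smul]
      map_zero' := by
        refine JV.ext' f rfl ?_
        change (0 : F) • x + (0 : F) • y = 0
        simp
      map_add' := by
        intro t u
        refine JV.ext' f rfl ?_
        change (t.2.1 + u.2.1) • x + (t.2.2 + u.2.2) • y =
          (t.2.1 • x + t.2.2 • y) + (u.2.1 • x + u.2.2 • y)
        rw [add_smul, add_smul]; abel
      map_mul' := by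
        intro t u
        refine JV.ext' f ?_ ?_
        · change (t * u).1 = t.1 * u.1 + f (t.2.1 • x + t.2.2 • y) (u.2.1 • x + u.2.2 • y)
          rw [JG.mul_1]
          simp only [map_add, LinearMap.add_apply, map_smul, LinearMap.smul_apply, smul_eq_mul]
          rw [hf y x]; ring
        · change (t * u).2.1 • x + (t * u).2.2 • y =
            t.1 • (u.2.1 • x + u.2.2 • y) + u.1 • (t.2.1 • x + t.2.2 • y)
          rw [JG.mul_2, JG.mul_3]
          simp only [smul_add, add_smul, mul_smul]; abel }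
  intro ρ
  have h1 : ψ (FreeNonUnitalNonAssocAlgebra.lift F ρ p) = 0 := by
    rw [hom_lift]; exact h _
  set t := FreeNonUnitalNonAssocAlgebra.lift F ρ p with ht
  have h2 : t.1 = 0 := congrArg (fun z : JV f => z.1) h1
  have h3 : t.2.1 • x + t.2.2 • y = 0 := congrArg (fun z : JV f => z.2) h1
  have h4 : t.2.1 * f x x + t.2.2 * f x y = 0 := by
    have := congrArg (f x) h3
    simpa using this
  have h5 : t.2.1 * f x y + t.2.2 * f y y = 0 := by
    have := congrArg (f y) h3
    rw [hf x y]
    simpa using this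
  have hD : f x x * f y y - f x y * f x y ≠ 0 := sub_ne_zero.mpr hd
  have h6 : t.2.1 = 0 := by
    have : t.2.1 * (f x x * f y y - f x y * f x y) = 0 := by
      linear_combination f y y * h4 - f x y * h5
    exact (mul_eq_zero.mp this).resolve_right hD
  have h7 : t.2.2 = 0 := by
    have : t.2.2 * (f x x * f y y - f x y * f x y) = 0 := by
      linear_combination f x x * h5 - f x y * h4
    exact (mul_eq_zero.mp this).resolve_right hD
  exact JG.ext' h2 h6 h7

/-- A nondegenerate symmetric `2 × 2` form over an algebraically closed field has a hyperbolic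
basis. -/
theorem exists_hyperbolic {K : Type*} [Field K] [IsAlgClosed K] (h2 : (2 : K) ≠ 0) (a b c : K)
    (hd : a * c ≠ b * b) : ∃ p q r s : K, a * p * p + b * (p * q + q * p) + c * q * q = 0 ∧
      a * p * r + b * (p * s + q * r) + c * q * s = 1 ∧
      a * r * r + b * (r * s + s * r) + c * s * s = 0 := by
  obtain ⟨d, hd2⟩ := IsAlgClosed.exists_eq_mul_self (b * b - a * c)
  have hdne : b * b - a * c ≠ 0 := sub_ne_zero.mpr (Ne.symm hd)
  by_cases ha : a = 0
  · subst ha
    have hb : b ≠ 0 := by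
      rintro rfl; apply hd; ring
    -- vectors (1, 0) and (t, 1/b)
    refine ⟨1, 0, -c / (2 * b * b), 1 / b, ?_, ?_, ?_⟩ <;> field_simp <;> ring
  · refine ⟨-b + d, a, (-b - d) * (-1 / (2 * a * (d * d))), a * (-1 / (2 * a * (d * d))),
      ?_, ?_, ?_⟩
    · linear_combination (-a) * hd2
    · have hdd : d * d ≠ 0 := hd2 ▸ hdne
      have hd0 : d ≠ 0 := fun h => hdd (by rw [h]; ring)
      field_simp
      linear_combination hd2
    · have hdd : d * d ≠ 0 := hd2 ▸ hdne
      have hd0 : d ≠ 0 := fun h => hdd (by rw [h]; ring)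
      field_simp
      linear_combination (-1 : K) * hd2

open Polynomial in
/-- All identities of `J(V, f)` are identities of the split algebra over `K[τ]`. -/
theorem JV.identity_split {F : Type u} {V : Type w} [Field F] [Infinite F] [AddCommGroup V]
    [Module F V] (h2 : (2 : F) ≠ 0)
    (f : LinearMap.BilinForm F V) (hf : ∀ x y, f x y = f y x) (x y : V)
    (hd : f x x * f y y ≠ f x y * f x y) (p : FreeNonUnitalNonAssocAlgebra F ℕ)
    (h : IsIdentity F (JV f) p) :
    IsIdentity F (JG (AlgebraicClosure F)[X] 0 1 0) p := by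
  have h1 := JG.identity_ext _ _ _ (AlgebraicClosure F)[X] p (JV.identity_sub f hf x y hd p h)
  set K := AlgebraicClosure F
  have h2K : (2 : K) ≠ 0 := by
    have := (algebraMap F K).injective.ne h2
    rwa [map_ofNat, map_zero] at this
  obtain ⟨q1, q2, q3, q4, e1, e2, e3⟩ := exists_hyperbolic h2K (algebraMap F K (f x x))
    (algebraMap F K (f x y)) (algebraMap F K (f y y)) (by
      rw [← map_mul, ← map_mul]; exact (algebraMap F K).injective.ne hd)
  have hC : ∀ t : F, algebraMap F K[X] t = C (algebraMap F K t) := fun t => rfl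
  let φ := JG.base F (R := K[X]) (a := algebraMap F K[X] (f x x)) (b := algebraMap F K[X] (f x y))
    (c := algebraMap F K[X] (f y y)) (C q1) (C q2) (C q3) (C q4)
    (by rw [hC, hC, hC]; simp only [← C_mul, ← C_add]; rw [e1, C_0])
    (by rw [hC, hC, hC]; simp only [← C_mul, ← C_add]; rw [e2, C_1])
    (by rw [hC, hC, hC]; simp only [← C_mul, ← C_add]; rw [e3, C_0])
  intro ρ
  have h3 : φ (FreeNonUnitalNonAssocAlgebra.lift F ρ p) = 0 := by
    rw [hom_lift]; exact h1 _
  set t := FreeNonUnitalNonAssocAlgebra.lift F ρ p with ht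
  have g1 : t.1 = 0 := congrArg (fun z : JG K[X] _ _ _ => z.1) h3
  have g2 : C q1 * t.2.1 + C q3 * t.2.2 = 0 := congrArg (fun z : JG K[X] _ _ _ => z.2.1) h3
  have g3 : C q2 * t.2.1 + C q4 * t.2.2 = 0 := congrArg (fun z : JG K[X] _ _ _ => z.2.2) h3
  have E1 := congrArg C e1
  have E2 := congrArg C e2
  have E3 := congrArg C e3
  simp only [C_mul, C_add, C_0, C_1] at E1 E2 E3
  set a' := C (algebraMap F K (f x x))
  set b' := C (algebraMap F K (f x y))
  set c' := C (algebraMap F K (f y y))
  have g5 : t.2.2 = 0 := by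
    linear_combination (a' * C q1 + b' * C q2) * g2 + (b' * C q1 + c' * C q2) * g3
      - t.2.1 * E1 - t.2.2 * E2
  have g4 : t.2.1 = 0 := by
    linear_combination (a' * C q3 + b' * C q4) * g2 + (b' * C q3 + c' * C q4) * g3
      - t.2.1 * E2 - t.2.2 * E3
  exact JG.ext' g1 g4 g5

/-! ### The 12-dimensional nonspecial Jordan algebra of characteristic 3 -/

/-- The underlying space of the example. -/
def E (F : Type u) : Type u := Fin 12 → F

/-- The product. With basis `x,y,z,s,t,r,m,n,k,l,h,T` (numbers `0,...,11`) the nonzero products of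
basis elements are `xx=s, xz=t, yy=r, ys=m, yt=n, xr=k, zr=l, xn=h, zm=h, yh=T, sl=T, tk=T`. -/
def mulE {F : Type u} [CommSemiring F] (f g : E F) : E F :=
  ![0, 0, 0, f 0 * g 0, f 0 * g 2 + f 2 * g 0, f 1 * g 1, f 1 * g 3 + f 3 * g 1,
    f 1 * g 4 + f 4 * g 1, f 0 * g 5 + f 5 * g 0, f 2 * g 5 + f 5 * g 2,
    (f 0 * g 7 + f 7 * g 0) + (f 2 * g 6 + f 6 * g 2),
    (f 1 * g 10 + f 10 * g 1) + (f 3 * g 9 + f 9 * g 3) + (f 4 * g 8 + f 8 * g 4)]

namespace E

theorem ext12 {F : Type u} {f g : E F} (h0 : f 0 = g 0) (h1 : f 1 = g 1) (h2 : f 2 = g 2)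
    (h3 : f 3 = g 3) (h4 : f 4 = g 4) (h5 : f 5 = g 5) (h6 : f 6 = g 6) (h7 : f 7 = g 7)
    (h8 : f 8 = g 8) (h9 : f 9 = g 9) (h10 : f 10 = g 10) (h11 : f 11 = g 11) : f = g := by
  funext i
  fin_cases i
  · exact h0
  · exact h1
  · exact h2
  · exact h3
  · exact h4
  · exact h5
  · exact h6
  · exact h7
  · exact h8
  · exact h9
  · exact h10
  · exact h11

section ap
variable {F : Type u} [CommSemiring F] (f g : E F)
theorem m0 : mulE f g 0 = 0 := rfl
theorem m1 : mulE f g 1 = 0 := rfl
theorem m2 : mulE f g 2 = 0 := rfl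
theorem m3 : mulE f g 3 = f 0 * g 0 := rfl
theorem m4 : mulE f g 4 = f 0 * g 2 + f 2 * g 0 := rfl
theorem m5 : mulE f g 5 = f 1 * g 1 := rfl
theorem m6 : mulE f g 6 = f 1 * g 3 + f 3 * g 1 := rfl
theorem m7 : mulE f g 7 = f 1 * g 4 + f 4 * g 1 := rfl
theorem m8 : mulE f g 8 = f 0 * g 5 + f 5 * g 0 := rfl
theorem m9 : mulE f g 9 = f 2 * g 5 + f 5 * g 2 := rfl
theorem m10 : mulE f g 10 = (f 0 * g 7 + f 7 * g 0) + (f 2 * g 6 + f 6 * g 2) := rfl
theorem m11 : mulE f g 11 =
    (f 1 * g 10 + f 10 * g 1) + (f 3 * g 9 + f 9 * g 3) + (f 4 * g 8 + f 8 * g 4) := rfl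
end ap

variable {F : Type u} [Field F]

instance : AddCommGroup (E F) := inferInstanceAs (AddCommGroup (Fin 12 → F))
instance : Module F (E F) := inferInstanceAs (Module F (Fin 12 → F))

theorem add_ap (f g : E F) (i : Fin 12) : (f + g) i = f i + g i := rfl
theorem zero_ap (i : Fin 12) : (0 : E F) i = 0 := rfl
theorem smul_ap (c : F) (f : E F) (i : Fin 12) : (c • f) i = c * f i := rfl

instance : NonUnitalNonAssocCommRing (E F) :=
  { (inferInstance : AddCommGroup (E F)) with
    mul := mulE
    left_distrib := by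
      intro f g h
      change mulE f (g + h) = mulE f g + mulE f h
      apply ext12 <;>
      simp only [m0, m1, m2, m3, m4, m5, m6, m7, m8, m9, m10, m11, add_ap] <;> ring
    right_distrib := by
      intro f g h
      change mulE (f + g) h = mulE f h + mulE g h
      apply ext12 <;>
      simp only [m0, m1, m2, m3, m4, m5, m6, m7, m8, m9, m10, m11, add_ap] <;> ring
    zero_mul := by
      intro f
      change mulE 0 f = 0
      apply ext12 <;>
      simp only [m0, m1, m2, m3, m4, m5, m6, m7, m8, m9, m10, m11, zero_ap] <;> ring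
    mul_zero := by
      intro f
      change mulE f 0 = 0
      apply ext12 <;>
      simp only [m0, m1, m2, m3, m4, m5, m6, m7, m8, m9, m10, m11, zero_ap] <;> ring
    mul_comm := by
      intro f g
      change mulE f g = mulE g f
      apply ext12 <;>
      simp only [m0, m1, m2, m3, m4, m5, m6, m7, m8, m9, m10, m11] <;> ring }

theorem mul_def (f g : E F) : f * g = mulE f g := rfl

instance : IsScalarTower F (E F) (E F) := by
  constructor
  intro c f g
  simp only [smul_eq_mul, mul_def]
  apply ext12 <;>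
  simp only [m0, m1, m2, m3, m4, m5, m6, m7, m8, m9, m10, m11, smul_ap] <;> ring

instance : SMulCommClass F (E F) (E F) := by
  constructor
  intro c f g
  simp only [smul_eq_mul, mul_def]
  apply ext12 <;>
  simp only [m0, m1, m2, m3, m4, m5, m6, m7, m8, m9, m10, m11, smul_ap] <;> ring

theorem jordan (h3 : (3 : F) = 0) : JordanIdentity (E F) := by
  intro f g
  simp only [mul_def]
  apply ext12 <;>
  simp only [m0, m1, m2, m3, m4, m5, m6, m7, m8, m9, m10, m11] <;> try ring1
  · linear_combination (f 0 * f 0 * f 2 * g 1) * h3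
  · linear_combination (f 1 ^ 2 * f 4 * g 0 + f 1 ^ 2 * f 3 * g 2 - 2 * g 0 * f 0 * f 2 * f 5
      - g 2 * f 0 ^ 2 * f 5 - g 5 * f 0 ^ 2 * f 2) * h3

end E

/-- The basis vectors (`bas F i = 0` for `i ≥ 12`). -/
def bas (F : Type u) [CommSemiring F] (i : ℕ) : E F := fun j => if (j : ℕ) = i then 1 else 0

/-- The multiplication table of the basis (`12` stands for `0`). -/
def mulB (i j : ℕ) : ℕ :=
  if i = 0 ∧ j = 0 then 3 else if (i = 0 ∧ j = 2) ∨ (i = 2 ∧ j = 0) then 4
  else if i = 1 ∧ j = 1 then 5 else if (i = 1 ∧ j = 3) ∨ (i = 3 ∧ j = 1) then 6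
  else if (i = 1 ∧ j = 4) ∨ (i = 4 ∧ j = 1) then 7 else if (i = 0 ∧ j = 5) ∨ (i = 5 ∧ j = 0) then 8
  else if (i = 2 ∧ j = 5) ∨ (i = 5 ∧ j = 2) then 9
  else if (i = 0 ∧ j = 7) ∨ (i = 7 ∧ j = 0) then 10
  else if (i = 2 ∧ j = 6) ∨ (i = 6 ∧ j = 2) then 10
  else if (i = 1 ∧ j = 10) ∨ (i = 10 ∧ j = 1) then 11
  else if (i = 3 ∧ j = 9) ∨ (i = 9 ∧ j = 3) then 11
  else if (i = 4 ∧ j = 8) ∨ (i = 8 ∧ j = 4) then 11 else 12

def chk (i j : ℕ) (k : Fin 12) : Bool :=
  decide ((mulE (bas ℕ i) (bas ℕ j) k : ℕ) = (bas ℕ (mulB i j) k : ℕ))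

theorem bas_mul_nat : ∀ i j : Fin 13, ∀ k : Fin 12, chk i j k = true := by
  decide +kernel

theorem bas_cast (F : Type u) [CommSemiring F] (i : ℕ) (k : Fin 12) :
    bas F i k = ((bas ℕ i k : ℕ) : F) := by
  unfold bas; split_ifs <;> simp

theorem bas_mul (F : Type u) [Field F] (i j : ℕ) (hi : i ≤ 12) (hj : j ≤ 12) :
    bas F i * bas F j = bas F (mulB i j) := by
  have key : ∀ k : Fin 12, (mulE (bas ℕ i) (bas ℕ j) k : ℕ) = bas ℕ (mulB i j) k :=
    fun k => of_decide_eq_true (bas_mul_nat ⟨i, by omega⟩ ⟨j, by omega⟩ k)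
  have key' : ∀ k : Fin 12, ((mulE (bas ℕ i) (bas ℕ j) k : ℕ) : F) = bas F (mulB i j) k := by
    intro k; rw [key k, ← bas_cast]
  rw [E.mul_def]
  apply E.ext12 <;> rw [← key'] <;>
    simp only [E.m0, E.m1, E.m2, E.m3, E.m4, E.m5, E.m6, E.m7, E.m8, E.m9, E.m10, E.m11,
      bas_cast F i, bas_cast F j] <;> push_cast <;> rfl

theorem ite_le {p : Prop} [Decidable p] {a b c : ℕ} (h1 : a ≤ c) (h2 : b ≤ c) :
    (if p then a else b) ≤ c := by split <;> assumption

theorem mulB_le (i j : ℕ) : mulB i j ≤ 12 := by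
  unfold mulB
  repeat' (apply ite_le <;> [norm_num; skip])
  exact le_refl _

/-- The example is not special. -/
theorem not_special {F : Type u} [Field F] (h2 : (2 : F) ≠ 0) : ¬ IsSpecial.{v} F (E F) := by
  rintro ⟨A, _, _, _, _, g, hg, hmul⟩
  have hhalf : ∀ t : A, (2 : F)⁻¹ • (t + t) = t := by
    intro t
    rw [← two_smul F t, smul_smul, inv_mul_cancel₀ h2, one_smul]
  have hcancel : ∀ t : A, (2 : F)⁻¹ • t = 0 → t = 0 := by
    intro t ht
    exact (smul_eq_zero.mp ht).resolve_left (inv_ne_zero h2)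
  have hz : bas F 12 = 0 := by
    funext j
    have : (j : ℕ) ≠ 12 := by have := j.2; omega
    change (if (j : ℕ) = 12 then (1 : F) else 0) = 0
    rw [if_neg this]
  set X := g (bas F 0)
  set Y := g (bas F 1)
  set Z := g (bas F 2)
  have e01 : bas F 0 * bas F 1 = 0 := by
    rw [bas_mul F 0 1 (by omega) (by omega)]; exact hz
  have e12 : bas F 1 * bas F 2 = 0 := by
    rw [bas_mul F 1 2 (by omega) (by omega)]; exact hz
  have hXY : X * Y + Y * X = 0 := by
    apply hcancel; rw [← hmul, e01, map_zero]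
  have hYZ : Y * Z + Z * Y = 0 := by
    apply hcancel; rw [← hmul, e12, map_zero]
  have hS : g (bas F 3) = X * X := by
    have : bas F 3 = bas F 0 * bas F 0 := by
      rw [bas_mul F 0 0 (by omega) (by omega)]; rfl
    rw [this, hmul]; exact hhalf _
  set S := X * X with hSdef
  have hYX' : Y * X = -(X * Y) := by
    rw [eq_neg_iff_add_eq_zero, add_comm]; exact hXY
  have hYZ' : Y * Z = -(Z * Y) := by
    rw [eq_neg_iff_add_eq_zero]; exact hYZ
  have hYS : Y * S = S * Y := by
    rw [hSdef, ← mul_assoc, hYX', neg_mul, mul_assoc, hYX', mul_neg, neg_neg, mul_assoc]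
  have hM : g (bas F 6) = S * Y := by
    have : bas F 6 = bas F 1 * bas F 3 := by
      rw [bas_mul F 1 3 (by omega) (by omega)]; rfl
    rw [this, hmul, hS]
    change (2 : F)⁻¹ • (Y * S + S * Y) = S * Y
    rw [hYS]; exact hhalf _
  have hH : g (bas F 10) = (2 : F)⁻¹ • (Z * (S * Y) + (S * Y) * Z) := by
    have : bas F 10 = bas F 2 * bas F 6 := by
      rw [bas_mul F 2 6 (by omega) (by omega)]; rfl
    rw [this, hmul, hM]
  have hT : g (bas F 11) = 0 := by
    have : bas F 11 = bas F 1 * bas F 10 := by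
      rw [bas_mul F 1 10 (by omega) (by omega)]; rfl
    rw [this, hmul, hH, mul_smul_comm, smul_mul_assoc, ← smul_add]
    have e : Y * (Z * (S * Y) + (S * Y) * Z) + (Z * (S * Y) + (S * Y) * Z) * Y = 0 := by
      have t1 : Y * (Z * (S * Y)) = -(Z * (S * (Y * Y))) := by
        rw [← mul_assoc, hYZ', neg_mul, mul_assoc, ← mul_assoc Y S Y, hYS, mul_assoc]
      have t2 : Y * ((S * Y) * Z) = -(S * (Y * (Z * Y))) := by
        rw [← mul_assoc, ← mul_assoc Y S Y, hYS, mul_assoc, mul_assoc, hYZ', mul_neg, mul_neg]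
      have t3 : (Z * (S * Y)) * Y = Z * (S * (Y * Y)) := by
        rw [mul_assoc, mul_assoc]
      have t4 : ((S * Y) * Z) * Y = S * (Y * (Z * Y)) := by
        rw [mul_assoc, mul_assoc]
      rw [mul_add, add_mul, t1, t2, t3, t4]; abel
    change (2 : F)⁻¹ • (2 : F)⁻¹ • (Y * (Z * (S * Y) + (S * Y) * Z) +
      (Z * (S * Y) + (S * Y) * Z) * Y) = 0
    rw [e, smul_zero, smul_zero]
  have h11 : bas F 11 = 0 := hg (by rw [hT, map_zero])
  have := congrFun h11 (11 : Fin 12)
  change (if ((11 : Fin 12) : ℕ) = 11 then (1 : F) else 0) = 0 at this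
  simp at this

/-! ### Evaluating nonassociative words -/

open Polynomial

/-- Values of words on the basis vectors `x, y, z` of the example. -/
def evB : FreeMagma (Fin 3) → ℕ
  | .of i => i
  | .mul a b => mulB (evB a) (evB b)

/-- Product of two polynomials given as lists of exponents. -/
def mulL (l l' : List ℕ) : List ℕ := l.flatMap fun a => l'.map fun b => a + b

/-- Values of words at `τ^2200 + τ^2201 f`, `τ^2400 + τ^2403 e`, `τ^3000 + τ^3009 e + τ^3018 f`. -/
def evL : FreeMagma (Fin 3) → List ℕ × List ℕ × List ℕ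
  | .of i => if i = 0 then ([2200], [], [2201]) else if i = 1 then ([2400], [2403], [])
      else ([3000], [3009], [3018])
  | .mul a b => (mulL (evL a).1 (evL b).1 ++ (mulL (evL a).2.1 (evL b).2.2 ++
        mulL (evL a).2.2 (evL b).2.1),
      mulL (evL a).1 (evL b).2.1 ++ mulL (evL b).1 (evL a).2.1,
      mulL (evL a).1 (evL b).2.2 ++ mulL (evL b).1 (evL a).2.2)

def wt : FreeMagma (Fin 3) → ℕ
  | .of i => if i = 0 then 11 else if i = 1 then 12 else 15
  | .mul a b => wt a + wt b

def len : FreeMagma (Fin 3) → ℕ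
  | .of _ => 1
  | .mul a b => len a + len b

def mu0 (k : ℕ) : ℕ := if k = 12208 then 2 else if k = 12214 then 1 else if k = 12225 then 2 else 0
def mu1 (k : ℕ) : ℕ := if k = 12207 then 1 else if k = 12213 then 2 else if k = 12224 then 1 else 0
def mu2 (k : ℕ) : ℕ := if k = 12226 then 1 else if k = 12205 then 2 else if k = 12211 then 1
  else if k = 12201 then 2 else 0

def sumMu (t : List ℕ × List ℕ × List ℕ) : ℕ :=
  (t.1.map mu0).sum + (t.2.1.map mu1).sum + (t.2.2.map mu2).sum

def prodW (l l' : List (FreeMagma (Fin 3))) : List (FreeMagma (Fin 3)) :=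
  l.flatMap fun a => l'.map fun b => .mul a b

def W1 : List (FreeMagma (Fin 3)) := [.of 0, .of 1, .of 2]
def W2 := prodW W1 W1
def W3 := prodW W1 W2 ++ prodW W2 W1
def W4 := prodW W1 W3 ++ (prodW W2 W2 ++ prodW W3 W1)
def W5 := prodW W1 W4 ++ (prodW W2 W3 ++ (prodW W3 W2 ++ prodW W4 W1))

def checkW (w : FreeMagma (Fin 3)) : Bool :=
  if wt w = 61 then decide (sumMu (evL w) % 3 = if evB w = 11 then 1 else 0) else true

theorem W5_check : W5.all checkW = true := by
  decide +kernel

theorem wt_len (w : FreeMagma (Fin 3)) :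
    ∃ i j k : ℕ, wt w = 11 * i + 12 * j + 15 * k ∧ len w = i + j + k := by
  induction w using FreeMagma.rec with
  | of i =>
    fin_cases i
    · exact ⟨1, 0, 0, by simp [wt], by simp [len]⟩
    · exact ⟨0, 1, 0, by simp [wt], by simp [len]⟩
    · exact ⟨0, 0, 1, by simp [wt], by simp [len]⟩
  | mul a b ha hb =>
    obtain ⟨i, j, k, h1, h2⟩ := ha
    obtain ⟨i', j', k', h1', h2'⟩ := hb
    refine ⟨i + i', j + j', k + k', ?_, ?_⟩
    · change wt a + wt b = _; rw [h1, h1']; ring
    · change len a + len b = _; rw [h2, h2']; ring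

theorem len_pos (w : FreeMagma (Fin 3)) : 1 ≤ len w := by
  induction w using FreeMagma.rec with
  | of i => exact le_refl 1
  | mul a b ha hb => change 1 ≤ len a + len b; omega

theorem mem_prodW {l l' : List (FreeMagma (Fin 3))} {a b : FreeMagma (Fin 3)} (ha : a ∈ l)
    (hb : b ∈ l') : FreeMagma.mul a b ∈ prodW l l' := by
  unfold prodW
  rw [List.mem_flatMap]
  exact ⟨a, ha, List.mem_map.mpr ⟨b, hb, rfl⟩⟩

theorem mem_W1 {w : FreeMagma (Fin 3)} (h : len w = 1) : w ∈ W1 := by
  cases w with
  | of i => fin_cases i <;> simp [W1]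
  | mul a b => have h1 := len_pos a; have h2 := len_pos b; change len a + len b = 1 at h; omega

theorem mem_W2 {w : FreeMagma (Fin 3)} (h : len w = 2) : w ∈ W2 := by
  cases w with
  | of i => change 1 = 2 at h; omega
  | mul a b =>
    have h1 := len_pos a; have h2 := len_pos b; change len a + len b = 2 at h
    exact mem_prodW (mem_W1 (by omega)) (mem_W1 (by omega))

theorem mem_W3 {w : FreeMagma (Fin 3)} (h : len w = 3) : w ∈ W3 := by
  cases w with
  | of i => change 1 = 3 at h; omega
  | mul a b =>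
    have h1 := len_pos a; have h2 := len_pos b; change len a + len b = 3 at h
    unfold W3
    rw [List.mem_append]
    rcases (show len a = 1 ∨ len a = 2 by omega) with h3 | h3
    · left; exact mem_prodW (mem_W1 h3) (mem_W2 (by omega))
    · right; exact mem_prodW (mem_W2 h3) (mem_W1 (by omega))

theorem mem_W4 {w : FreeMagma (Fin 3)} (h : len w = 4) : w ∈ W4 := by
  cases w with
  | of i => change 1 = 4 at h; omega
  | mul a b =>
    have h1 := len_pos a; have h2 := len_pos b; change len a + len b = 4 at h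
    unfold W4
    rw [List.mem_append, List.mem_append]
    rcases (show len a = 1 ∨ len a = 2 ∨ len a = 3 by omega) with h3 | h3 | h3
    · left; exact mem_prodW (mem_W1 h3) (mem_W3 (by omega))
    · right; left; exact mem_prodW (mem_W2 h3) (mem_W2 (by omega))
    · right; right; exact mem_prodW (mem_W3 h3) (mem_W1 (by omega))

theorem mem_W5 {w : FreeMagma (Fin 3)} (h : len w = 5) : w ∈ W5 := by
  cases w with
  | of i => change 1 = 5 at h; omega
  | mul a b =>
    have h1 := len_pos a; have h2 := len_pos b; change len a + len b = 5 at h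
    unfold W5
    rw [List.mem_append, List.mem_append, List.mem_append]
    rcases (show len a = 1 ∨ len a = 2 ∨ len a = 3 ∨ len a = 4 by omega) with h3 | h3 | h3 | h3
    · left; exact mem_prodW (mem_W1 h3) (mem_W4 (by omega))
    · right; left; exact mem_prodW (mem_W2 h3) (mem_W3 (by omega))
    · right; right; left; exact mem_prodW (mem_W3 h3) (mem_W2 (by omega))
    · right; right; right; exact mem_prodW (mem_W4 h3) (mem_W1 (by omega))

theorem mem_mulL {l l' : List ℕ} {k : ℕ} (h : k ∈ mulL l l') :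
    ∃ a ∈ l, ∃ b ∈ l', k = a + b := by
  unfold mulL at h
  rw [List.mem_flatMap] at h
  obtain ⟨a, ha, h⟩ := h
  obtain ⟨b, hb, rfl⟩ := List.mem_map.mp h
  exact ⟨a, ha, b, hb, rfl⟩

/-- The exponents occurring in the value of a word are controlled by its weight. -/
theorem evL_range (w : FreeMagma (Fin 3)) :
    (∀ k ∈ (evL w).1, 200 * wt w ≤ k ∧ k ≤ 202 * wt w) ∧
    (∀ k ∈ (evL w).2.1, 200 * wt w ≤ k ∧ k ≤ 202 * wt w) ∧
    (∀ k ∈ (evL w).2.2, 200 * wt w ≤ k ∧ k ≤ 202 * wt w) := by
  induction w using FreeMagma.rec with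
  | of i =>
    fin_cases i
    · refine ⟨?_, ?_, ?_⟩ <;> intro k hk <;> simp [evL] at hk <;> simp [wt] <;> omega
    · refine ⟨?_, ?_, ?_⟩ <;> intro k hk <;> simp [evL] at hk <;> simp [wt] <;> omega
    · refine ⟨?_, ?_, ?_⟩ <;> intro k hk <;> simp [evL] at hk <;> simp [wt] <;> omega
  | mul a b ha hb =>
    obtain ⟨a1, a2, a3⟩ := ha
    obtain ⟨b1, b2, b3⟩ := hb
    have hw : wt (FreeMagma.mul a b) = wt a + wt b := rfl
    have step : ∀ {l l' : List ℕ} {u v : ℕ}, (∀ k ∈ l, 200 * u ≤ k ∧ k ≤ 202 * u) →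
        (∀ k ∈ l', 200 * v ≤ k ∧ k ≤ 202 * v) → ∀ k ∈ mulL l l',
        200 * (u + v) ≤ k ∧ k ≤ 202 * (u + v) := by
      intro l l' u v hl hl' k hk
      obtain ⟨x, hx, y, hy, rfl⟩ := mem_mulL hk
      have := hl x hx; have := hl' y hy
      constructor <;> omega
    rw [hw]
    refine ⟨?_, ?_, ?_⟩
    · intro k hk
      change k ∈ mulL (evL a).1 (evL b).1 ++ (mulL (evL a).2.1 (evL b).2.2 ++
        mulL (evL a).2.2 (evL b).2.1) at hk
      rw [List.mem_append, List.mem_append] at hk
      rcases hk with hk | hk | hk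
      · exact step a1 b1 k hk
      · exact step a2 b3 k hk
      · exact step a3 b2 k hk
    · intro k hk
      change k ∈ mulL (evL a).1 (evL b).2.1 ++ mulL (evL b).1 (evL a).2.1 at hk
      rw [List.mem_append] at hk
      rcases hk with hk | hk
      · exact step a1 b2 k hk
      · rw [add_comm (wt a)]; exact step b1 a2 k hk
    · intro k hk
      change k ∈ mulL (evL a).1 (evL b).2.2 ++ mulL (evL b).1 (evL a).2.2 at hk
      rw [List.mem_append] at hk
      rcases hk with hk | hk
      · exact step a1 b3 k hk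
      · rw [add_comm (wt a)]; exact step b1 a3 k hk

theorem mu0_zero {k : ℕ} (h : k < 12200 ∨ 12230 < k) : mu0 k = 0 := by
  unfold mu0; rw [if_neg (by omega), if_neg (by omega), if_neg (by omega)]

theorem mu1_zero {k : ℕ} (h : k < 12200 ∨ 12230 < k) : mu1 k = 0 := by
  unfold mu1; rw [if_neg (by omega), if_neg (by omega), if_neg (by omega)]

theorem mu2_zero {k : ℕ} (h : k < 12200 ∨ 12230 < k) : mu2 k = 0 := by
  unfold mu2; rw [if_neg (by omega), if_neg (by omega), if_neg (by omega), if_neg (by omega)]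

theorem sum_map_zero {l : List ℕ} {m : ℕ → ℕ} (h : ∀ k ∈ l, m k = 0) : (l.map m).sum = 0 := by
  apply List.sum_eq_zero
  intro x hx
  obtain ⟨k, hk, rfl⟩ := List.mem_map.mp hx
  exact h k hk

theorem sumMu_zero {w : FreeMagma (Fin 3)} (h : wt w ≠ 61) : sumMu (evL w) = 0 := by
  obtain ⟨h1, h2, h3⟩ := evL_range w
  have aux : ∀ k, 200 * wt w ≤ k ∧ k ≤ 202 * wt w → k < 12200 ∨ 12230 < k := by
    intro k hk; omega
  unfold sumMu
  rw [sum_map_zero (fun k hk => mu0_zero (aux k (h1 k hk))),
    sum_map_zero (fun k hk => mu1_zero (aux k (h2 k hk))),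
    sum_map_zero (fun k hk => mu2_zero (aux k (h3 k hk)))]

def wtB (i : ℕ) : ℕ :=
  [11, 12, 15, 22, 26, 24, 34, 38, 35, 39, 49, 61, 0].getD i 0

def chkWt (i j : ℕ) : Bool :=
  decide (mulB i j < 12 → i < 12 ∧ j < 12 ∧ wtB i + wtB j = wtB (mulB i j))

theorem wtB_mul : ∀ i j : Fin 13, chkWt i j = true := by
  decide +kernel

theorem evB_le (w : FreeMagma (Fin 3)) : evB w ≤ 12 := by
  cases w with
  | of i => change (i : ℕ) ≤ 12; omega
  | mul a b => exact mulB_le _ _

theorem evB_wt (w : FreeMagma (Fin 3)) : evB w < 12 → wt w = wtB (evB w) := by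
  induction w using FreeMagma.rec with
  | of i => intro _; fin_cases i <;> rfl
  | mul a b ha hb =>
    intro h
    have h1 : mulB (evB a) (evB b) < 12 → evB a < 12 ∧ evB b < 12 ∧
        wtB (evB a) + wtB (evB b) = wtB (mulB (evB a) (evB b)) :=
      of_decide_eq_true (wtB_mul ⟨evB a, by have := evB_le a; omega⟩
        ⟨evB b, by have := evB_le b; omega⟩)
    obtain ⟨h2, h3, h4⟩ := h1 h
    change wt a + wt b = wtB (mulB (evB a) (evB b))
    rw [ha h2, hb h3, h4]

/-- The crucial computation. -/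
theorem sumMu_evL (w : FreeMagma (Fin 3)) :
    sumMu (evL w) % 3 = if evB w = 11 then 1 else 0 := by
  by_cases h : wt w = 61
  · have h5 : len w = 5 := by
      obtain ⟨i, j, k, h1, h2⟩ := wt_len w
      omega
    have h6 := List.all_eq_true.mp W5_check w (mem_W5 h5)
    unfold checkW at h6
    rw [if_pos h] at h6
    exact of_decide_eq_true h6
  · rw [sumMu_zero h]
    have : evB w ≠ 11 := by
      intro h11
      apply h
      rw [evB_wt w (by omega), h11]; rfl
    rw [if_neg this]

/-! ### Linear functionals -/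

section functional

variable {F : Type u} [Field F] {K : Type u} [Field K] [Algebra F K]

/-- Polynomial with all coefficients `1` given by a list of exponents. -/
noncomputable def toP (K : Type u) [Field K] (l : List ℕ) : K[X] :=
  (l.map fun k => monomial k (1 : K)).sum

theorem toP_append (l l' : List ℕ) : toP K (l ++ l') = toP K l + toP K l' := by
  simp [toP]

theorem toP_map_add (a : ℕ) (l : List ℕ) :
    toP K (l.map fun b => a + b) = monomial a (1 : K) * toP K l := by
  unfold toP
  induction l with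
  | nil => simp
  | cons b l ih =>
    simp only [List.map_cons, List.sum_cons, mul_add, monomial_mul_monomial, mul_one] at ih ⊢
    rw [ih]

theorem toP_mulL (l l' : List ℕ) : toP K (mulL l l') = toP K l * toP K l' := by
  induction l with
  | nil => simp [mulL, toP]
  | cons a l ih =>
    have : mulL (a :: l) l' = (l'.map fun b => a + b) ++ mulL l l' := by
      simp [mulL]
    rw [this, toP_append, toP_map_add, ih]
    simp only [toP, List.map_cons, List.sum_cons]
    ring

/-- The `K`-linear functional on `K[τ]` with prescribed values on the monomials. -/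
noncomputable def fn (K : Type u) [Field K] (m : ℕ → ℕ) : K[X] →ₗ[K] K :=
  (basisMonomials K).constr K fun k => (m k : K)

theorem fn_monomial (m : ℕ → ℕ) (k : ℕ) : fn K m (monomial k 1) = (m k : K) := by
  have : monomial k (1 : K) = basisMonomials K k := by simp
  rw [fn, this, Module.Basis.constr_basis]

theorem fn_toP (m : ℕ → ℕ) (l : List ℕ) : fn K m (toP K l) = (((l.map m).sum : ℕ) : K) := by
  unfold toP
  induction l with
  | nil => simp
  | cons a l ih =>
    simp only [List.map_cons, List.sum_cons, map_add, fn_monomial, Nat.cast_add] at ih ⊢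
    rw [ih]

/-- The value of a word at the generators, in the split algebra over `K[τ]`. -/
noncomputable def vJ (K : Type u) [Field K] (w : FreeMagma (Fin 3)) : JG K[X] 0 1 0 :=
  (toP K (evL w).1, toP K (evL w).2.1, toP K (evL w).2.2)

theorem vJ_1 (w : FreeMagma (Fin 3)) : (vJ K w).1 = toP K (evL w).1 := rfl
theorem vJ_2 (w : FreeMagma (Fin 3)) : (vJ K w).2.1 = toP K (evL w).2.1 := rfl
theorem vJ_3 (w : FreeMagma (Fin 3)) : (vJ K w).2.2 = toP K (evL w).2.2 := rfl

/-- The generators in the split algebra over `K[τ]`. -/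
noncomputable def gJ (K : Type u) [Field K] (i : Fin 3) : JG K[X] 0 1 0 := vJ K (.of i)

theorem lift_gJ (w : FreeMagma (Fin 3)) :
    FreeNonUnitalNonAssocAlgebra.lift F (gJ K) (MonoidAlgebra.ofMagma F _ w) = vJ K w := by
  induction w using FreeMagma.rec with
  | of i => exact FreeNonUnitalNonAssocAlgebra.lift_of_apply F (gJ K) i
  | mul a b ha hb =>
    have : MonoidAlgebra.ofMagma F _ (FreeMagma.mul a b) =
      MonoidAlgebra.ofMagma F _ a * MonoidAlgebra.ofMagma F _ b :=
      map_mul (MonoidAlgebra.ofMagma F _) a b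
    rw [this, map_mul, ha, hb]
    refine JG.ext' ?_ ?_ ?_
    · rw [JG.mul_1]
      simp only [vJ_1, vJ_2, vJ_3, evL, toP_append, toP_mulL]; ring
    · rw [JG.mul_2]
      simp only [vJ_1, vJ_2, evL, toP_append, toP_mulL]
    · rw [JG.mul_3]
      simp only [vJ_1, vJ_3, evL, toP_append, toP_mulL]

/-- The generators in the example. -/
def gE (F : Type u) [Field F] (i : Fin 3) : E F := bas F i

theorem lift_gE (w : FreeMagma (Fin 3)) :
    FreeNonUnitalNonAssocAlgebra.lift F (gE F) (MonoidAlgebra.ofMagma F _ w) =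
      bas F (evB w) := by
  induction w using FreeMagma.rec with
  | of i => exact FreeNonUnitalNonAssocAlgebra.lift_of_apply F (gE F) i
  | mul a b ha hb =>
    have : MonoidAlgebra.ofMagma F _ (FreeMagma.mul a b) =
      MonoidAlgebra.ofMagma F _ a * MonoidAlgebra.ofMagma F _ b :=
      map_mul (MonoidAlgebra.ofMagma F _) a b
    rw [this, map_mul, ha, hb, bas_mul F _ _ (evB_le a) (evB_le b)]
    rfl

end functional

section final

variable {F : Type u} [Field F] {K : Type u} [Field K] [Algebra F K]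

/-- The functional on the split algebra which computes the last coordinate in the example. -/
noncomputable def M (t : JG K[X] 0 1 0) : K := fn K mu0 t.1 + fn K mu1 t.2.1 + fn K mu2 t.2.2

theorem M_add (t t' : JG K[X] 0 1 0) : M (t + t') = M t + M t' := by
  unfold M
  rw [JG.add_1, JG.add_2, JG.add_3, map_add, map_add, map_add]; ring

theorem fn_smul (m : ℕ → ℕ) (c : F) (q : K[X]) : fn K m (c • q) = algebraMap F K c * fn K m q := by
  have : c • q = (algebraMap F K c) • q := by rw [algebraMap_smul]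
  rw [this, map_smul, smul_eq_mul]

theorem M_smul (c : F) (t : JG K[X] 0 1 0) : M (c • t) = algebraMap F K c * M t := by
  unfold M
  rw [JG.smul_1, JG.smul_2, JG.smul_3, fn_smul, fn_smul, fn_smul]; ring

theorem M_vJ (h3 : (3 : K) = 0) (w : FreeMagma (Fin 3)) :
    M (vJ K w) = if evB w = 11 then 1 else 0 := by
  have h : M (vJ K w) = ((sumMu (evL w) : ℕ) : K) := by
    unfold M sumMu
    rw [vJ_1, vJ_2, vJ_3, fn_toP, fn_toP, fn_toP]; push_cast; ring
  have h2 : sumMu (evL w) = 3 * (sumMu (evL w) / 3) + sumMu (evL w) % 3 :=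
    (Nat.div_add_mod _ 3).symm
  rw [h, h2, sumMu_evL]
  push_cast
  rw [h3, zero_mul, zero_add]

theorem single_eq (X : Type*) (w : FreeMagma X) (c : F) :
    (MonoidAlgebra.single w c : FreeNonUnitalNonAssocAlgebra F X) =
      c • MonoidAlgebra.ofMagma F _ w := by
  simp [MonoidAlgebra.ofMagma]

theorem M_lift (h3 : (3 : K) = 0) (P : FreeNonUnitalNonAssocAlgebra F (Fin 3)) :
    M (FreeNonUnitalNonAssocAlgebra.lift F (gJ K) P) =
      algebraMap F K ((FreeNonUnitalNonAssocAlgebra.lift F (gE F) P) 11) := by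
  induction P using MonoidAlgebra.induction_linear with
  | zero =>
    rw [map_zero, map_zero, E.zero_ap, map_zero]
    change fn K mu0 0 + fn K mu1 0 + fn K mu2 0 = 0
    simp
  | add P Q hP hQ => rw [map_add, map_add, M_add, hP, hQ, E.add_ap, map_add]
  | single w c =>
    rw [single_eq, map_smul, map_smul, M_smul, lift_gJ, lift_gE, M_vJ h3, E.smul_ap, map_mul]
    congr 1
    change _ = algebraMap F K (if ((11 : Fin 12) : ℕ) = evB w then 1 else 0)
    by_cases h : evB w = 11
    · rw [if_pos h, if_pos (by rw [h]; rfl), map_one]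
    · rw [if_neg h, if_neg (fun h' => h h'.symm), map_zero]

/-- Words representing the basis. -/
def bw (i : Fin 12) : FreeMagma (Fin 3) :=
  match i with
  | 0 => .of 0
  | 1 => .of 1
  | 2 => .of 2
  | 3 => .mul (.of 0) (.of 0)
  | 4 => .mul (.of 0) (.of 2)
  | 5 => .mul (.of 1) (.of 1)
  | 6 => .mul (.mul (.of 0) (.of 0)) (.of 1)
  | 7 => .mul (.mul (.of 0) (.of 2)) (.of 1)
  | 8 => .mul (.mul (.of 1) (.of 1)) (.of 0)
  | 9 => .mul (.mul (.of 1) (.of 1)) (.of 2)
  | 10 => .mul (.mul (.mul (.of 0) (.of 0)) (.of 1)) (.of 2)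
  | 11 => .mul (.mul (.mul (.mul (.of 0) (.of 0)) (.of 1)) (.of 2)) (.of 1)

theorem evB_bw : ∀ i : Fin 12, evB (bw i) = i := by decide +kernel

theorem gE_surj (α : E F) : ∃ P : FreeNonUnitalNonAssocAlgebra F (Fin 3),
    FreeNonUnitalNonAssocAlgebra.lift F (gE F) P = α := by
  refine ⟨∑ i : Fin 12, α i • MonoidAlgebra.ofMagma F _ (bw i), ?_⟩
  rw [map_sum]
  simp only [map_smul, lift_gE, evB_bw]
  have key : ∀ j : Fin 12, (∑ i : Fin 12, α i • bas F (i : ℕ)) j = α j := by
    intro j
    have h1 : (∑ i : Fin 12, α i • bas F (i : ℕ)) j = ∑ i : Fin 12, (α i • bas F (i : ℕ)) j :=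
      Finset.sum_apply (M := fun _ => F) j Finset.univ (fun i : Fin 12 => (α i • bas F (i : ℕ)))
    rw [h1, Finset.sum_eq_single j]
    · change α j * (if (j : ℕ) = (j : ℕ) then 1 else 0) = α j
      simp
    · intro i _ hij
      change α i * (if (j : ℕ) = (i : ℕ) then 1 else 0) = 0
      rw [if_neg, mul_zero]
      intro h; exact hij (Fin.ext h.symm)
    · intro h; exact absurd (Finset.mem_univ j) h
  exact funext key

/-- Values in the example of polynomials which vanish in the split algebra. -/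
def N (K : Type u) [Field K] [Algebra F K] (α : E F) : Prop :=
  ∃ P : FreeNonUnitalNonAssocAlgebra F (Fin 3),
    FreeNonUnitalNonAssocAlgebra.lift F (gJ K) P = 0 ∧
      FreeNonUnitalNonAssocAlgebra.lift F (gE F) P = α

theorem N_mul {α : E F} (h : N K α) (β : E F) : N K (β * α) := by
  obtain ⟨P, h1, h2⟩ := h
  obtain ⟨Q, hQ⟩ := gE_surj β
  exact ⟨Q * P, by rw [map_mul, h1, mul_zero], by rw [map_mul, hQ, h2]⟩

theorem N_11 (h3 : (3 : K) = 0) {α : E F} (h : N K α) : α 11 = 0 := by
  obtain ⟨P, h1, h2⟩ := h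
  have := M_lift (F := F) (K := K) h3 P
  rw [h1, h2] at this
  have h0 : M (0 : JG K[X] 0 1 0) = 0 := by
    change fn K mu0 0 + fn K mu1 0 + fn K mu2 0 = 0
    simp
  rw [h0] at this
  exact (algebraMap F K).injective (by rw [map_zero]; exact this.symm)

theorem bas_same (i : Fin 12) : bas F (i : ℕ) i = 1 := by
  change (if (i : ℕ) = (i : ℕ) then (1 : F) else 0) = 1
  rw [if_pos rfl]

theorem bas_ne (i : ℕ) (j : Fin 12) (h : (j : ℕ) ≠ i) : bas F i j = 0 := by
  change (if (j : ℕ) = i then (1 : F) else 0) = 0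
  rw [if_neg h]

theorem N_zero (h3 : (3 : K) = 0) {α : E F} (h : N K α) : α = 0 := by
  -- coordinates that are detected by one multiplication
  have A : ∀ β : E F, N K β → β 10 = 0 ∧ β 1 = 0 ∧ β 9 = 0 ∧ β 3 = 0 ∧ β 8 = 0 ∧ β 4 = 0 := by
    intro β hβ
    have c1 := N_11 h3 (N_mul hβ (bas F 1))
    have c10 := N_11 h3 (N_mul hβ (bas F 10))
    have c3 := N_11 h3 (N_mul hβ (bas F 3))
    have c9 := N_11 h3 (N_mul hβ (bas F 9))
    have c4 := N_11 h3 (N_mul hβ (bas F 4))
    have c8 := N_11 h3 (N_mul hβ (bas F 8))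
    rw [E.mul_def, E.m11] at c1 c10 c3 c9 c4 c8
    simp only [bas, Fin.isValue] at c1 c10 c3 c9 c4 c8
    norm_num at c1 c10 c3 c9 c4 c8
    exact ⟨c1, c10, c3, c9, c4, c8⟩
  obtain ⟨a10, a1, a9, a3, a8, a4⟩ := A α h
  obtain ⟨b10, b1, b9, b3, b8, b4⟩ := A _ (N_mul h (bas F 0))
  obtain ⟨d10, d1, d9, d3, d8, d4⟩ := A _ (N_mul h (bas F 2))
  rw [E.mul_def] at b10 b3 b8 b4 d10
  rw [E.m10] at b10 d10
  rw [E.m3] at b3
  rw [E.m8] at b8
  rw [E.m4] at b4
  simp only [bas, Fin.isValue] at b10 b3 b8 b4 d10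
  norm_num at b10 b3 b8 b4 d10
  exact E.ext12 b3 a1 b4 a3 a4 b8 d10 b10 a8 a9 a10 (N_11 h3 h)

theorem inVar_of_split (h3 : (3 : K) = 0) (p : FreeNonUnitalNonAssocAlgebra F ℕ)
    (h : IsIdentity F (JG K[X] 0 1 0) p) : IsIdentity F (E F) p := by
  intro ρ
  choose P hP using fun n => gE_surj (ρ n)
  apply N_zero (K := K) h3
  refine ⟨FreeNonUnitalNonAssocAlgebra.lift F P p, ?_, ?_⟩
  · rw [hom_lift]; exact h _
  · rw [hom_lift]
    congr 2
    funext n
    exact hP n

end final

theorem main (F : Type u) [Field F] [Infinite F] [CharP F 3] (V : Type w) [AddCommGroup V]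
    [Module F V] (f : LinearMap.BilinForm F V) (hf : ∀ x y, f x y = f y x)
    (hd : ∃ x y, f x x * f y y ≠ f x y * f x y) :
    JordanIdentity (E F) ∧ InVar F (JV f) (E F) ∧ ¬ IsSpecial.{v} F (E F) := by
  obtain ⟨x, y, hd⟩ := hd
  have h3 : (3 : F) = 0 := by
    have := CharP.cast_eq_zero F 3
    exact_mod_cast this
  have h2 : (2 : F) ≠ 0 := by
    intro h
    apply one_ne_zero (α := F)
    linear_combination h3 - h
  have h3K : (3 : AlgebraicClosure F) = 0 := by
    have := congrArg (algebraMap F (AlgebraicClosure F)) h3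
    rwa [map_ofNat, map_zero] at this
  refine ⟨E.jordan h3, ?_, not_special h2⟩
  intro p hp
  exact inVar_of_split (K := AlgebraicClosure F) h3K p (JV.identity_split h2 f hf x y hd p hp)

/-- The value `f(x, y)`. -/
def val {F : Type u} {V : Type w} [Field F] [AddCommGroup V] [Module F V]
    (f : LinearMap.BilinForm F V) (x y : V) : F := f x y

/-- Some `2 × 2` Gram determinant of `f` is nonzero: in characteristic different from `2` this says
that the symmetric bilinear form `f` has rank at least `2`. -/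
def RankAtLeastTwo {F : Type u} {V : Type w} [Field F] [AddCommGroup V] [Module F V]
    (f : LinearMap.BilinForm F V) : Prop :=
  ∃ x y, val f x x * val f y y ≠ val f x y * val f x y

/-- **Main result.** (1) Let `F` be an infinite field of characteristic `3` and let `f` be a
symmetric bilinear form of rank at least `2` on a vector space `V` over `F`. Then the variety
generated by `J(V, f)` is not special. (2) Hence Question 1 has a negative answer: it is not true
that for all `p > 2`, all infinite fields of characteristic `p` and all symmetric bilinear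
forms `f` the variety generated by `J(V, f)` is special. -/
theorem result :
    (∀ (F : Type u) [Field F] [Infinite F] [CharP F 3] (V : Type w) [AddCommGroup V] [Module F V]
      (f : LinearMap.BilinForm F V), f.IsSymm → RankAtLeastTwo f → ¬ VarIsSpecial.{u, w, v} f) ∧
    ¬ (∀ (p : ℕ) (F : Type) [Field F] [Infinite F] [CharP F p], 2 < p →
      ∀ (V : Type) [AddCommGroup V] [Module F V] (f : LinearMap.BilinForm F V),
        f.IsSymm → VarIsSpecial.{0, 0, v} f) := by
  constructor
  · intro F _ _ _ V _ _ f hf hd h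
    obtain ⟨h1, h2, h3⟩ := main.{u, w, v} F V f hf.eq hd
    exact h3 (h (E F) h1 h2)
  · intro h
    let F := AlgebraicClosure (ZMod 3)
    let f : LinearMap.BilinForm F (F × F) :=
      LinearMap.mk₂ F (fun x y => x.1 * y.1 + x.2 * y.2)
        (by intro x y z; simp only [Prod.fst_add, Prod.snd_add]; ring)
        (by intro c x y; simp only [Prod.smul_fst, Prod.smul_snd, smul_eq_mul]; ring)
        (by intro x y z; simp only [Prod.fst_add, Prod.snd_add]; ring)
        (by intro c x y; simp only [Prod.smul_fst, Prod.smul_snd, smul_eq_mul]; ring)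
    have hf : ∀ x y, f x y = f y x := by
      intro x y
      change x.1 * y.1 + x.2 * y.2 = y.1 * x.1 + y.2 * x.2
      ring
    have hd : ∃ x y, f x x * f y y ≠ f x y * f x y := by
      refine ⟨(1, 0), (0, 1), ?_⟩
      change ((1 : F) * 1 + 0 * 0) * (0 * 0 + 1 * 1) ≠ (1 * 0 + 0 * 1) * (1 * 0 + 0 * 1)
      norm_num
    obtain ⟨h1, h2, h3⟩ := main.{0, 0, v} F (F × F) f hf hd
    exact h3 (h 3 F (by norm_num) (F × F) f ⟨hf⟩ (E F) h1 h2)

end Pool.Agent.Results.MP_7d9e78_al.NotSpecialCharThree
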